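import Pool.Agent.Helper5.RO.Goals
import Pool.Agent.Helper29.BL.PEX

/-!
# Project RO (MP_a41896_nt), packet NV: the resultant is not zero
-/

namespace Pool.Agent.Helper16.RO

open WeierstrassCurve MvPolynomial
open Pool.Agent.Helper29.BL Pool.Agent.Helper29.GC Pool.Agent.Helper5.RO

noncomputable section

/-- The space of the `ν` with `Σ φ(ν_j) w_j = 0`. -/
def ksp {K Ω : Type} [Field K] [Field Ω] (φ : K →+* Ω) {ι : Type} [Fintype ι] (w : ι → Ω) :
    Submodule K (ι → K) where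
  carrier := {ν | ∑ j, φ (ν j) * w j = 0}
  add_mem' := by
    intro a b ha hb
    have h : ∑ j, φ ((a + b) j) * w j = ∑ j, φ (a j) * w j + ∑ j, φ (b j) * w j := by
      rw [← Finset.sum_add_distrib]
      refine Finset.sum_congr rfl fun j _ ↦ ?_
      rw [Pi.add_apply, map_add, add_mul]
    change ∑ j, φ ((a + b) j) * w j = 0
    rw [h, show ∑ j, φ (a j) * w j = 0 from ha, show ∑ j, φ (b j) * w j = 0 from hb, add_zero]
  zero_mem' := by
    change ∑ j, φ ((0 : ι → K) j) * w j = 0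
    simp
  smul_mem' := by
    intro r a ha
    have h : ∑ j, φ ((r • a) j) * w j = φ r * ∑ j, φ (a j) * w j := by
      rw [Finset.mul_sum]
      refine Finset.sum_congr rfl fun j _ ↦ ?_
      rw [Pi.smul_apply, smul_eq_mul, map_mul, mul_assoc]
    change ∑ j, φ ((r • a) j) * w j = 0
    rw [h, show ∑ j, φ (a j) * w j = 0 from ha, mul_zero]

theorem mem_ksp {K Ω : Type} [Field K] [Field Ω] (φ : K →+* Ω) {ι : Type} [Fintype ι]
    (w : ι → Ω) (ν : ι → K) : ν ∈ ksp φ w ↔ ∑ j, φ (ν j) * w j = 0 := Iff.rfl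

/-- A vector outside finitely many hyperplanes. -/
theorem exists_vec {K Ω : Type} [Field K] [Infinite K] [Field Ω] (φ : K →+* Ω) {ι : Type}
    [Fintype ι] {τ : Type} (s : Finset τ) (w : τ → ι → Ω) (hs : ∀ t ∈ s, w t ≠ 0) :
    ∃ ν : ι → K, ∀ t ∈ s, ∑ j, φ (ν j) * w t j ≠ 0 := by
  classical
  have h1 : (⊤ : Submodule K (ι → K)) ∉ s.image fun t ↦ ksp φ (w t) := by
    intro h
    obtain ⟨t, ht, he⟩ := Finset.mem_image.1 h
    refine hs t ht (funext fun j ↦ ?_)
    have h2 : (Pi.single j 1 : ι → K) ∈ ksp φ (w t) := by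
      rw [he]; trivial
    rw [mem_ksp, Finset.sum_eq_single j] at h2
    · simpa using h2
    · intro i _ hi
      rw [Pi.single_eq_of_ne hi, map_zero, zero_mul]
    · intro h
      exact absurd (Finset.mem_univ j) h
  have h2 := Subspace.biUnion_ne_univ_of_top_notMem h1
  obtain ⟨ν, hν⟩ := (Set.ne_univ_iff_exists_notMem _).1 h2
  refine ⟨ν, fun t ht h0 ↦ hν ?_⟩
  rw [Set.mem_iUnion₂]
  exact ⟨ksp φ (w t), Finset.mem_image_of_mem _ ht, h0⟩

theorem degreeOf_lc {K : Type} [Field K] {n : ℕ} {ι : Type} [Fintype ι] {D : ℕ}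
    {f : ι → MvPolynomial (Fin n) K} (hf : ∀ j i, degreeOf i (f j) ≤ D) (μ : ι → K) (i : Fin n) :
    degreeOf i (lc f μ) ≤ D := by
  unfold lc
  refine (degreeOf_sum_le i _ _).trans (Finset.sup_le fun j _ ↦ ?_)
  exact (degreeOf_C_mul_le (f j) i (μ j)).trans (hf j i)

theorem eval₂_lc {K : Type} [Field K] {n : ℕ} {ι : Type} [Fintype ι]
    (f : ι → MvPolynomial (Fin n) K) (μ : ι → K) {Ω : Type} [Field Ω] (φ : K →+* Ω)
    (ξ : Fin n → Ω) : eval₂ φ ξ (lc f μ) = ∑ j, φ (μ j) * eval₂ φ ξ (f j) := by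
  unfold lc
  rw [eval₂_sum]
  refine Finset.sum_congr rfl fun j _ ↦ ?_
  rw [eval₂_mul, eval₂_C]

/-- **NV**. -/
theorem gNV (hAV : G_AV) (hDEG : G_DEG) (hHVAL : G_HVAL) (hHEV : G_HEV) : G_NV := by
  classical
  intro K _ _ _ W _ n hn ι _ D f hf c A B hMP
  obtain ⟨Ω, hF, hDec, hAC, φ, ξ, hξ, hav⟩ := hAV K W n hn ι D f hf c
  have hinf : Infinite K := CharZero.infinite K
  -- the points `b i`
  set W' : Affine Ω := W.map φ with hW'
  have hell : W'.IsElliptic := by
    rw [hW']; infer_instance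
  choose b hb0 hbx using fun i ↦ pex Ω W' (ξ i)
  have hav' := hav W' rfl b fun i ↦ ⟨hb0 i, hbx i⟩
  have hbξ : (fun i ↦ xc (b i)) = ξ := funext hbx
  -- the families of pairs
  set Y : W'.Point → Finset (Fin n) → Fin n → Fin 2 → Ω := fun u A' i ↦
    if i ∈ A' then (c i • u + b i).xRep else (c i • u - b i).xRep with hY
  have hYne : ∀ (u : W'.Point) (A' : Finset (Fin n)),
      (fun j ↦ hev φ D (f j) (Y u A')) ≠ 0 := by
    intro u A' h0
    refine hav' u (fun i ↦ if i ∈ A' then 1 else -1) fun j ↦ ?_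
    have h1 : (fun i ↦ (c i • u + (((if i ∈ A' then 1 else -1 : ℤˣ) : ℤˣ) : ℤ) • b i).xRep) =
        Y u A' := by
      funext i
      rw [hY]
      by_cases hi : i ∈ A'
      · simp [hi]
      · simp [hi, sub_eq_add_neg]
    rw [h1]
    exact congrFun h0 j
  -- the values of the polynomials
  set H : MvPolynomial (Fin n × Fin 3) K → Polynomial Ω := fun N ↦
    (HP W A B N).map (eval₂Hom φ ξ) with hH
  have hval : ∀ (μ : ι → K) (N : MvPolynomial (Fin n × Fin 3) K), NForm D (lc f μ) N →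
      ∀ u : W'.Point, u ≠ 0 → (Polynomial.eval (xc u) (H N) = 0 ↔
        ∃ A' : Finset (Fin n), ∑ j, φ (μ j) * hev φ D (f j) (Y u A') = 0) := by
    intro μ N hN u hu
    obtain ⟨κ, hκ, -, hv⟩ := hHVAL K W n D c A B hMP (lc f μ) N hN Ω φ W' rfl u b hu hb0
    rw [hbξ] at hv
    rw [hH]
    simp only
    rw [hv, Finset.prod_eq_zero_iff]
    have h1 : ∀ A' : Finset (Fin n), (hev φ D (lc f μ) (fun i ↦
          if i ∈ A' then κ i • (c i • u + b i).xRep else (c i • u - b i).xRep) = 0 ↔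
        ∑ j, φ (μ j) * hev φ D (f j) (Y u A') = 0) := by
      intro A'
      have h2 : (fun i ↦ if i ∈ A' then κ i • (c i • u + b i).xRep else (c i • u - b i).xRep) =
          fun i ↦ (if i ∈ A' then κ i else 1) • Y u A' i := by
        funext i
        rw [hY]
        by_cases hi : i ∈ A'
        · simp [hi]
        · simp [hi]
      rw [h2, hHEV.2.1 K Ω φ n D (lc f μ) _ (Y u A') (degreeOf_lc hf.deg μ), mul_eq_zero,
        hHEV.1 K Ω φ n D ι f μ (Y u A')]
      constructor
      · rintro (h | h)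
        · exfalso
          have h3 : (∏ i, (if i ∈ A' then κ i else 1)) ≠ 0 := by
            rw [Finset.prod_ne_zero_iff]
            intro i _
            split_ifs
            · exact hκ i
            · exact one_ne_zero
          exact pow_ne_zero D h3 h
        · exact h
      · exact Or.inr
    constructor
    · rintro ⟨A', -, hA'⟩
      exact ⟨A', (h1 A').1 hA'⟩
    · rintro ⟨A', hA'⟩
      exact ⟨A', Finset.mem_univ _, (h1 A').2 hA'⟩
  -- the degrees
  have hdeg : ∀ (μ : ι → K) (N : MvPolynomial (Fin n × Fin 3) K), NForm D (lc f μ) N →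
      ∑ j, φ (μ j) * eval₂ φ ξ (f j) ≠ 0 → (H N).natDegree = aa n D c := by
    intro μ N hN hne
    obtain ⟨h1, -, h2⟩ := hDEG K W n D c A B hMP (lc f μ) N hN
    have h3 : (H N).coeff (aa n D c) ≠ 0 := by
      rw [hH]
      simp only
      rw [Polynomial.coeff_map, h2, map_pow]
      refine pow_ne_zero _ ?_
      rw [coe_eval₂Hom, eval₂_lc]
      exact hne
    exact le_antisymm ((Polynomial.natDegree_map_le).trans h1) (Polynomial.le_natDegree_of_ne_zero h3)
  -- the values at `ξ`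
  have hv0 : (fun j ↦ eval₂ φ ξ (f j)) ≠ 0 := by
    intro h0
    have h1 : ∀ j, f j = 0 := by
      intro j
      by_contra hne
      exact hξ (f j) hne (congrFun h0 j)
    have h2 := hf.cop 0 fun j ↦ by rw [h1 j]
    exact not_isUnit_zero h2
  obtain ⟨μ, hμ⟩ := exists_vec φ ({()} : Finset Unit) (fun _ j ↦ eval₂ φ ξ (f j))
    fun _ _ ↦ hv0
  have hμ' := hμ () (Finset.mem_singleton_self _)
  by_cases hex : ∃ N₀, NForm D (lc f μ) N₀
  · obtain ⟨N₀, hN₀⟩ := hex
    -- the roots
    choose u hu0 hux using fun t ↦ pex Ω W' t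
    obtain ⟨ν, hν⟩ := exists_vec φ (insert none
      (((H N₀).roots.toFinset ×ˢ (Finset.univ : Finset (Finset (Fin n)))).image some))
      (fun z j ↦ match z with
        | none => eval₂ φ ξ (f j)
        | some z => hev φ D (f j) (Y (u z.1) z.2)) (by
        intro z _
        cases z with
        | none => exact hv0
        | some z => exact hYne (u z.1) z.2)
    have hν0 := hν none (Finset.mem_insert_self _ _)
    simp only at hν0
    refine ⟨μ, ν, fun Nμ Nν hNμ hNν hres ↦ ?_⟩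
    have h1 : Polynomial.resultant (H Nμ) (H Nν) (aa n D c) (aa n D c) = 0 := by
      rw [hH]
      simp only
      rw [Polynomial.resultant_map_map, hres, map_zero]
    have hdμ := hdeg μ Nμ hNμ hμ'
    have hdν := hdeg ν Nν hNν hν0
    have hlc : (H Nμ).leadingCoeff ≠ 0 := by
      obtain ⟨-, -, h2⟩ := hDEG K W n D c A B hMP (lc f μ) Nμ hNμ
      rw [Polynomial.leadingCoeff, hdμ, hH]
      simp only
      rw [Polynomial.coeff_map, h2, map_pow]
      refine pow_ne_zero _ ?_
      rw [coe_eval₂Hom, eval₂_lc]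
      exact hμ'
    have h2 := Polynomial.resultant_eq_prod_eval (H Nμ) (H Nν) (aa n D c) hdν.le
      (IsAlgClosed.splits _)
    rw [hdμ, h1] at h2
    have h3 := (mul_eq_zero.1 h2.symm).resolve_left (pow_ne_zero _ hlc)
    rw [Multiset.prod_eq_zero_iff, Multiset.mem_map] at h3
    obtain ⟨t, ht, htν⟩ := h3
    have htμ : Polynomial.eval t (H Nμ) = 0 := (Polynomial.mem_roots'.1 ht).2
    -- `t` is a root of `H N₀`
    have hH0 : H N₀ ≠ 0 := by
      intro h0
      obtain ⟨-, -, h2⟩ := hDEG K W n D c A B hMP (lc f μ) N₀ hN₀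
      have h3 : (H N₀).coeff (aa n D c) ≠ 0 := by
        rw [hH]
        simp only
        rw [Polynomial.coeff_map, h2, map_pow]
        refine pow_ne_zero _ ?_
        rw [coe_eval₂Hom, eval₂_lc]
        exact hμ'
      rw [h0, Polynomial.coeff_zero] at h3
      exact h3 rfl
    have htN₀ : t ∈ (H N₀).roots.toFinset := by
      rw [Multiset.mem_toFinset, Polynomial.mem_roots hH0, Polynomial.IsRoot.def]
      rw [← hux t] at htμ ⊢
      rw [hux t] at htμ ⊢
      have h4 := (hval μ Nμ hNμ (u t) (hu0 t)).1 (by rw [hux]; exact htμ)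
      have h5 := (hval μ N₀ hN₀ (u t) (hu0 t)).2 h4
      rwa [hux] at h5
    obtain ⟨A', hA'⟩ := (hval ν Nν hNν (u t) (hu0 t)).1 (by rw [hux]; exact htν)
    refine hν (some (t, A')) ?_ hA'
    rw [Finset.mem_insert]
    exact Or.inr (Finset.mem_image_of_mem _ (Finset.mem_product.2 ⟨htN₀, Finset.mem_univ _⟩))
  · exact ⟨μ, 0, fun Nμ Nν hNμ _ ↦ absurd ⟨Nμ, hNμ⟩ hex⟩

end

end Pool.Agent.Helper16.RO
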